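import Pool.Agent.Helper27.Sing.Defs
import Pool.Agent.Helper16.Abund.Semi

/-! Basic facts on holomorphic functions on open subsets of a complex manifold. -/

open scoped Manifold ContDiff ENNReal Topology
open MeasureTheory Filter Metric

namespace Pool.Agent.Helper27.Sing

open Pool.Agent.Helper16.Abund

variable {n : ℕ} {R : Type*} [TopologicalSpace R] [ChartedSpace (Fin n → ℂ) R]

theorem mdiffAt_iff_chart {f : R → ℂ} {y : R} :
    MDifferentiableAt 𝓘(ℂ, Fin n → ℂ) 𝓘(ℂ) f y ↔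
      ContinuousAt f y ∧ DifferentiableAt ℂ (f ∘ (chartAt (Fin n → ℂ) y).symm)
        (chartAt (Fin n → ℂ) y y) := by
  rw [mdifferentiableAt_iff]
  simp [writtenInExtChartAt, mfld_simps, chartAt_self_eq, differentiableWithinAt_univ]

theorem mdiffAt_of_chart {f : R → ℂ} {y : R}
    (h : DifferentiableAt ℂ (f ∘ (chartAt (Fin n → ℂ) y).symm) (chartAt (Fin n → ℂ) y y)) :
    MDifferentiableAt 𝓘(ℂ, Fin n → ℂ) 𝓘(ℂ) f y := by
  rw [mdiffAt_iff_chart]
  refine ⟨?_, h⟩
  set χ := chartAt (Fin n → ℂ) y with hχ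
  have h1 : ContinuousAt (fun z => (f ∘ χ.symm) (χ z)) y :=
    h.continuousAt.comp (χ.continuousAt (mem_chart_source _ y))
  refine h1.congr ?_
  filter_upwards [χ.open_source.mem_nhds (mem_chart_source _ y)] with z hz
  simp only [Function.comp_apply]
  rw [χ.left_inv hz]

/-- Holomorphic functions, read in the preferred chart at `y₀`. -/
theorem HolOn.chart [IsManifold 𝓘(ℂ, Fin n → ℂ) ω R] {A : Set R} (hA : IsOpen A) {f : R → ℂ}
    (hf : HolOn n A f) (y₀ : R) :
    DifferentiableOn ℂ (f ∘ (chartAt (Fin n → ℂ) y₀).symm)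
      ((chartAt (Fin n → ℂ) y₀).target ∩ (chartAt (Fin n → ℂ) y₀).symm ⁻¹' A) := by
  intro z hz
  have h1 : MDifferentiableAt 𝓘(ℂ, Fin n → ℂ) 𝓘(ℂ, Fin n → ℂ) (chartAt (Fin n → ℂ) y₀).symm z :=
    (mdiff_chart_symm y₀).mdifferentiableAt ((chartAt (Fin n → ℂ) y₀).open_target.mem_nhds hz.1)
  have h2 : MDifferentiableAt 𝓘(ℂ, Fin n → ℂ) 𝓘(ℂ) f ((chartAt (Fin n → ℂ) y₀).symm z) :=
    (hf _ hz.2).mdifferentiableAt (hA.mem_nhds hz.2)
  exact (mdifferentiableAt_iff_differentiableAt.mp (h2.comp z h1)).differentiableWithinAt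

/-- Holomorphic functions composed with holomorphic maps from open subsets of `ℂⁿ`. -/
theorem HolOn.comp_map {A : Set R} (hA : IsOpen A) {f : R → ℂ}
    (hf : HolOn n A f) {V : Set (Fin n → ℂ)} {ψ : (Fin n → ℂ) → R} (hV : IsOpen V)
    (hψ : MDifferentiableOn 𝓘(ℂ, Fin n → ℂ) 𝓘(ℂ, Fin n → ℂ) ψ V) (hVA : Set.MapsTo ψ V A) :
    DifferentiableOn ℂ (f ∘ ψ) V := by
  intro z hz
  have h2 : MDifferentiableAt 𝓘(ℂ, Fin n → ℂ) 𝓘(ℂ) f (ψ z) :=
    (hf _ (hVA hz)).mdifferentiableAt (hA.mem_nhds (hVA hz))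
  exact (mdifferentiableAt_iff_differentiableAt.mp
    (h2.comp z (hψ.mdifferentiableAt (hV.mem_nhds hz)))).differentiableWithinAt

theorem HolOn.mono {A B : Set R} {f : R → ℂ} (hf : HolOn n B f) (h : A ⊆ B) : HolOn n A f :=
  MDifferentiableOn.mono hf h

theorem HolOn.add {A : Set R} {f g : R → ℂ} (hf : HolOn n A f) (hg : HolOn n A g) :
    HolOn n A (fun z => f z + g z) := MDifferentiableOn.add hf hg

theorem HolOn.sub {A : Set R} {f g : R → ℂ} (hf : HolOn n A f) (hg : HolOn n A g) :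
    HolOn n A (fun z => f z - g z) := MDifferentiableOn.sub hf hg

theorem holOn_const {A : Set R} (c : ℂ) : HolOn n A (fun _ : R => c) :=
  mdifferentiableOn_const

theorem HolOn.mul {A : Set R} {f g : R → ℂ} (hf : HolOn n A f) (hg : HolOn n A g) :
    HolOn n A (fun z => f z * g z) := MDifferentiableOn.mul hf hg

theorem HolOn.pow {A : Set R} {f : R → ℂ} (hf : HolOn n A f) (k : ℕ) :
    HolOn n A (fun z => f z ^ k) := by
  induction k with
  | zero => simpa using holOn_const (n := n) (A := A) 1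
  | succ k ih => simpa [pow_succ] using ih.mul hf

theorem HolOn.continuousOn {A : Set R} {f : R → ℂ} (hf : HolOn n A f) : ContinuousOn f A :=
  MDifferentiableOn.continuousOn hf

/-- A holomorphic function may be changed off `A`, and locally. -/
theorem holOn_of_locally {A : Set R} {f : R → ℂ}
    (h : ∀ y ∈ A, ∃ g : R → ℂ, ∃ B : Set R, IsOpen B ∧ y ∈ B ∧ HolOn n B g ∧ ∀ z ∈ B, f z = g z) :
    HolOn n A f := by
  intro y hy
  obtain ⟨g, B, hB, hyB, hg, hfg⟩ := h y hy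
  have h1 : MDifferentiableAt 𝓘(ℂ, Fin n → ℂ) 𝓘(ℂ) g y :=
    (hg y hyB).mdifferentiableAt (hB.mem_nhds hyB)
  refine (h1.congr_of_eventuallyEq ?_).mdifferentiableWithinAt
  filter_upwards [hB.mem_nhds hyB] with z hz using hfg z hz

/-- Weierstrass M-test on a complex manifold. -/
theorem holOn_tsum [IsManifold 𝓘(ℂ, Fin n → ℂ) ω R] {ι' : Type*} {F : ι' → R → ℂ} {u : ι' → ℝ}
    {A : Set R} (hA : IsOpen A) (hF : ∀ i, HolOn n A (F i)) (hu : Summable u)
    (hb : ∀ i, ∀ z ∈ A, ‖F i z‖ ≤ u i) : HolOn n A (fun z => ∑' i, F i z) := by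
  intro y hy
  refine (mdiffAt_of_chart ?_).mdifferentiableWithinAt
  set χ := chartAt (Fin n → ℂ) y with hχ
  have hys : y ∈ χ.source := mem_chart_source _ y
  have hopen : IsOpen (χ.target ∩ χ.symm ⁻¹' A) := χ.isOpen_inter_preimage_symm hA
  have hd := differentiableOn_tsum hopen (fun i => (hF i).chart hA y) hu
    (fun i z hz => hb i _ hz.2)
  refine (hd.differentiableAt (hopen.mem_nhds ⟨χ.map_source hys, ?_⟩))
  change χ.symm (χ y) ∈ A
  rw [χ.left_inv hys]
  exact hy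

end Pool.Agent.Helper27.Sing
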