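import Pool.Agent.Helper96.Ab.Goals
import Pool.Agent.Helper27.Sing.Basic

/-! Packet B of MP_5ff3c6_ag. -/

open scoped Manifold ContDiff ENNReal Topology
open MeasureTheory Filter
open Pool.Agent.Helper16.Abund

namespace Pool.Agent.Helper27.Sing

universe u

theorem stmtB : Pool.Agent.Helper96.Ab.StmtB.{u} := by
  constructor
  · intro n M _ _ _ m s w Ω hΩ hs hw hw0 y hy
    refine (mdiffAt_of_chart ?_).mdifferentiableWithinAt
    set χ := chartAt (Fin n → ℂ) y with hχ
    have hys : y ∈ χ.source := mem_chart_source _ y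
    set V : Set (Fin n → ℂ) := χ.target ∩ χ.symm ⁻¹' Ω with hV
    have hopen : IsOpen V := χ.isOpen_inter_preimage_symm hΩ
    have hmem : χ y ∈ V := by
      refine ⟨χ.map_source hys, ?_⟩
      rw [Set.mem_preimage, χ.left_inv hys]
      exact hy
    have hψ : MDifferentiableOn 𝓘(ℂ, Fin n → ℂ) 𝓘(ℂ, Fin n → ℂ) χ.symm V :=
      (mdiff_chart_symm y).mono Set.inter_subset_left
    have h1 := hs V χ.symm hopen hψ fun z hz => hz.2
    have h2 := hw V χ.symm hopen hψ fun z hz => hz.2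
    have h3 : ∀ z ∈ V, w (χ.symm z) * jac n χ.symm z ^ m ≠ 0 := fun z hz =>
      mul_ne_zero (hw0 _ hz.2) (pow_ne_zero _ (jac_chart_symm_ne_zero y hz.1))
    have h4 := (h1.mul (h2.inv h3)).differentiableAt (hopen.mem_nhds hmem)
    refine h4.congr_of_eventuallyEq ?_
    filter_upwards [hopen.mem_nhds hmem] with z hz
    simp only [Function.comp_apply, Pi.mul_apply, Pi.inv_apply]
    rw [← div_eq_mul_inv, mul_div_mul_right _ _ (pow_ne_zero _ (jac_chart_symm_ne_zero y hz.1))]
  · intro n M _ _ _ g Ω hΩ hg hb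
    apply holOn_of_locally
    intro z hz
    obtain ⟨W, hW, hzW, hWΩ, u, hu, hbu⟩ := hb z hz
    exact ⟨_, W, hW, hzW, holOn_tsum hW (fun i => (hg i).mono hWΩ) hu hbu, fun _ _ => rfl⟩

end Pool.Agent.Helper27.Sing
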