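import Pool.Agent.Helper96.Ab.Goals

/-! Packet N of MP_5ff3c6_ag. -/

open scoped Topology
open Filter

namespace Pool.Agent.Helper27.Sing

universe u

theorem stmtN : Pool.Agent.Helper96.Ab.StmtN.{u} := by
  intro M F E T D hT h0 htend hbd
  -- dominated convergence
  have hgeo : Summable fun j : ℕ => |D| * (1 / 2 : ℝ) ^ (j + 1) :=
    ((summable_nat_add_iff 1).2 summable_geometric_two).mul_left _
  have hpt : ∀ z, (∀ j, ‖E j z‖ * (2 * T) ^ j ≤ D) → ∀ j, ‖E j z‖ * T ^ j ≤ |D| * (1 / 2) ^ j := by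
    intro z hz j
    have h1 : ‖E j z‖ * T ^ j = ‖E j z‖ * (2 * T) ^ j * (1 / 2) ^ j := by
      rw [mul_assoc, ← mul_pow]
      congr 2
      ring
    rw [h1]
    have := (hz j).trans (le_abs_self D)
    gcongr
  have hlim := tendsto_tsum_of_dominated_convergence (𝓕 := F)
    (f := fun z (j : ℕ) => ‖E (j + 1) z‖ * T ^ (j + 1)) (g := fun _ => (0 : ℝ)) hgeo
    (fun j => by simpa using (htend j).norm.mul_const (T ^ (j + 1)))
    (by
      filter_upwards [hbd] with z hz j
      rw [Real.norm_of_nonneg (by positivity)]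
      exact hpt z hz (j + 1))
  rw [tsum_zero] at hlim
  filter_upwards [hbd, hlim.eventually (gt_mem_nhds zero_lt_one)] with z hz hlt t ht hzero
  have hle : ∀ j, ‖E (j + 1) z * t ^ (j + 1)‖ ≤ ‖E (j + 1) z‖ * T ^ (j + 1) := by
    intro j
    rw [norm_mul, norm_pow]
    gcongr
  have hs1 : Summable fun j : ℕ => ‖E (j + 1) z‖ * T ^ (j + 1) :=
    Summable.of_nonneg_of_le (fun j => by positivity) (fun j => hpt z hz (j + 1)) hgeo
  have hs2 : Summable fun j : ℕ => E (j + 1) z * t ^ (j + 1) :=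
    Summable.of_norm_bounded hs1 hle
  have hs3 : Summable fun j : ℕ => E j z * t ^ j := (summable_nat_add_iff 1).1 hs2
  have e1 := hs3.tsum_eq_zero_add
  rw [hzero, h0, pow_zero, mul_one] at e1
  have e2 : ∑' j : ℕ, E (j + 1) z * t ^ (j + 1) = -1 := by
    linear_combination -e1
  have e3 : ‖∑' j : ℕ, E (j + 1) z * t ^ (j + 1)‖ ≤ ∑' j : ℕ, ‖E (j + 1) z‖ * T ^ (j + 1) :=
    tsum_of_norm_bounded hs1.hasSum hle
  rw [e2, norm_neg, norm_one] at e3
  exact absurd (e3.trans_lt hlt) (lt_irrefl _)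

end Pool.Agent.Helper27.Sing
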