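import Pool.Agent.Helper27.Sing.Pull2
import Pool.Agent.Helper27.Sing.B
import Pool.Agent.Helper98.Ab.F

/-! Transfer of pluricanonical forms from compact normal log terminal spaces. -/

open scoped Manifold ContDiff ENNReal Topology
open MeasureTheory Filter

namespace Pool.Agent.Helper27.SingPull

open Pool.Agent.Helper16.Abund Pool.Agent.Helper96.Ab

universe u

/-- Transfer from a compact normal log terminal space `Z` with regular locus `S` (for instance a
compact complex manifold `Z = S`): some covering `p : Y → M` of the regular locus of `X` (finite or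
infinite, Galois or not) has a holomorphic map `g : Y → S` to the regular locus of `Z`, all of whose
fibres have at most `N` points, and the pull back `g^* s` of some `m`-canonical form `s` of `Z`,
`m ≥ 1`, does not tend to zero at `x`. -/
def TransferAt (n : ℕ) {X M : Type u} [TopologicalSpace X] [TopologicalSpace M]
    [ChartedSpace (Fin n → ℂ) M] (j : M → X) (x : X) : Prop :=
  ∃ (Y S Z : Type u) (_ : TopologicalSpace Y) (_ : ChartedSpace (Fin n → ℂ) Y)
    (_ : IsManifold 𝓘(ℂ, Fin n → ℂ) ω Y) (_ : TopologicalSpace S) (_ : ChartedSpace (Fin n → ℂ) S)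
    (_ : IsManifold 𝓘(ℂ, Fin n → ℂ) ω S) (_ : TopologicalSpace Z) (_ : T2Space Z)
    (_ : CompactSpace Z) (k : S → Z) (p : Y → M) (g : Y → S) (m N : ℕ) (s : S → ℂ),
    IsNormalSpace n k ∧ IsLogTerminal n k ∧
      IsCoveringMap p ∧ IsLocalDiffeomorph 𝓘(ℂ, Fin n → ℂ) 𝓘(ℂ, Fin n → ℂ) ω p ∧
      MDifferentiable 𝓘(ℂ, Fin n → ℂ) 𝓘(ℂ, Fin n → ℂ) g ∧
      (∀ z : S, (g ⁻¹' {z}).encard ≤ N) ∧ 1 ≤ m ∧ IsPluriForm n S m s ∧
      NonzeroAt n j p m (fun y => s (g y) * jac n g y ^ m) x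

theorem IsPluriFormOn.pow' {n : ℕ} {M : Type*} [TopologicalSpace M] [ChartedSpace (Fin n → ℂ) M]
    {m : ℕ} {Ω : Set M} {c : M → ℂ} (hc : IsPluriFormOn n M m Ω c) (k : ℕ) :
    IsPluriFormOn n M (m * k) Ω (fun x => c x ^ k) := by
  intro V ψ hV hψ hVΩ
  refine ((hc V ψ hV hψ hVΩ).pow k).congr fun z _ => ?_
  simp only [Pi.pow_apply]
  rw [pow_mul, mul_pow]

theorem isPluriFormOn_of {n : ℕ} {M : Type*} [TopologicalSpace M] [ChartedSpace (Fin n → ℂ) M]
    {m : ℕ} {c : M → ℂ} (hc : IsPluriForm n M m c) (Ω : Set M) : IsPluriFormOn n M m Ω c :=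
  fun V ψ hV hψ _ => hc V ψ hV hψ

/-- A pluricanonical form on a compact normal log terminal space has finite mass. -/
theorem finiteMass_of_logTerminal {n m : ℕ} (hm : 1 ≤ m) {S Z : Type u} [TopologicalSpace S]
    [ChartedSpace (Fin n → ℂ) S] [IsManifold 𝓘(ℂ, Fin n → ℂ) ω S] [TopologicalSpace Z]
    [CompactSpace Z] {k : S → Z} (hk : IsNormalSpace n k) (hlt : IsLogTerminal n k) {s : S → ℂ}
    (hs : IsPluriForm n S m s) : FiniteMass n m s := by
  classical
  have hloc : ∀ z : Z, ∃ U : Set Z, IsOpen U ∧ z ∈ U ∧ FiniteMassOn n m (k ⁻¹' U) s := by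
    intro z
    obtain ⟨r, U, w, hr, hzU, hgen, hmass⟩ := hlt z
    have hΩ : IsOpen (k ⁻¹' U) := hgen.isOpen.preimage hk.openEmbedding.continuous
    have h1 : IsPluriFormOn n S (m * r) (k ⁻¹' U) (fun y => s y ^ r) :=
      IsPluriFormOn.pow' (isPluriFormOn_of hs _) r
    have h2 : IsPluriFormOn n S (m * r) (k ⁻¹' U) (fun y => w y ^ m) := by
      rw [mul_comm]
      exact IsPluriFormOn.pow' hgen.form m
    have h3 := Pool.Agent.Helper27.Sing.stmtB.1 n S (m * r) _ _ _ hΩ h1 h2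
      fun y hy => pow_ne_zero _ (hgen.ne_zero y hy)
    obtain ⟨c, hc⟩ := hk.hartogs U _ hgen.isOpen h3 z hzU
    have hev : ∀ᶠ y in comap k (𝓝 z), ‖s y ^ r / w y ^ m‖ < ‖c‖ + 1 :=
      hc.norm.eventually (gt_mem_nhds (lt_add_one _))
    rw [eventually_comap] at hev
    obtain ⟨U', hU'sub, hU'o, hzU'⟩ := _root_.mem_nhds_iff.1
      (Filter.inter_mem hev (hgen.isOpen.mem_nhds hzU))
    refine ⟨U', hU'o, hzU', ?_⟩
    refine stmtF.2 n S m r s w (k ⁻¹' U) (k ⁻¹' U') (‖c‖ + 1) hm hr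
      (fun y hy => (hU'sub hy).2) hmass ?_
    intro y hy
    have h4 : ‖s y ^ r / w y ^ m‖ < ‖c‖ + 1 := (hU'sub hy).1 y rfl
    have h5 : 0 < ‖w y ^ m‖ := norm_pos_iff.2 (pow_ne_zero _ (hgen.ne_zero y (hU'sub hy).2))
    rw [norm_div, div_lt_iff₀ h5, norm_pow, norm_pow] at h4
    exact h4.le
  choose U hUo hzU hmU using hloc
  obtain ⟨t, ht⟩ := CompactSpace.elim_nhds_subcover U fun z => (hUo z).mem_nhds (hzU z)
  refine stmtF.1 n S m s Z t (fun z => k ⁻¹' U z)
    (fun z _ => (hUo z).preimage hk.openEmbedding.continuous) ?_ fun z _ => hmU z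
  apply Set.eq_univ_of_forall
  intro y
  have hy : k y ∈ ⋃ x ∈ t, U x := by rw [ht]; trivial
  obtain ⟨z, hz⟩ := Set.mem_iUnion.1 hy
  obtain ⟨hzt, hyz⟩ := Set.mem_iUnion.1 hz
  exact Set.mem_biUnion hzt hyz

theorem finiteMass_pull {n m N : ℕ} (hm : 1 ≤ m) {Y Z : Type*}
    [TopologicalSpace Y] [ChartedSpace (Fin n → ℂ) Y] [IsManifold 𝓘(ℂ, Fin n → ℂ) ω Y]
    [TopologicalSpace Z] [T2Space Z]
    [ChartedSpace (Fin n → ℂ) Z] [IsManifold 𝓘(ℂ, Fin n → ℂ) ω Z]
    {g : Y → Z} (hg : MDifferentiable 𝓘(ℂ, Fin n → ℂ) 𝓘(ℂ, Fin n → ℂ) g)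
    (hN : ∀ z : Z, (g ⁻¹' {z}).encard ≤ N) {s : Z → ℂ}
    (hs : IsPluriForm n Z m s) (hmass : FiniteMass n m s) :
    FiniteMass n m (fun y => s (g y) * jac n g y ^ m) := by
  obtain ⟨C, hC⟩ := hmass
  obtain ⟨C', hC'⟩ := finiteMassOn_pull (A := Set.univ) hm hg hN isOpen_univ
    (isPluriFormOn_of hs _) ⟨C, fun N V ψ h1 h2 _ h4 h5 => hC N V ψ h1 h2 h4 h5⟩
  exact ⟨C', fun N V ψ h1 h2 h4 h5 => hC' N V ψ h1 h2 (fun i z _ => trivial) h4 h5⟩

theorem massAt_of_transferAt {n : ℕ} {X M : Type u} [TopologicalSpace X] [TopologicalSpace M]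
    [ChartedSpace (Fin n → ℂ) M] {j : M → X} {x : X} (h : TransferAt n j x) : MassAt n j x := by
  obtain ⟨Y, S, Z, i1, i2, i3, i4, i5, i6, i7, i8, i9, k, p, g, m, N, s, hk, hlt, hcov, hloc, hg,
    hN, hm, hs, hx⟩ := h
  have : T2Space S := hk.openEmbedding.isEmbedding.t2Space
  exact ⟨Y, i1, i2, i3, p, m, fun y => s (g y) * jac n g y ^ m, hcov, hloc, hm, hs.pullback hg,
    finiteMass_pull hm hg hN hs (finiteMass_of_logTerminal hm hk hlt hs), hx⟩

theorem isCoveringMap_id {X : Type*} [TopologicalSpace X] : IsCoveringMap (id : X → X) := fun _ =>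
  IsEvenlyCovered.to_isEvenlyCovered_preimage (I := Unit) ⟨inferInstance, Set.univ, trivial,
    isOpen_univ, isOpen_univ, (Homeomorph.prodPUnit (Set.univ : Set X)).symm, fun _ => rfl⟩

/-- On a compact normal log terminal space, forms on `X` itself give transfer data. -/
theorem transferAt_of_form {n : ℕ} {X M : Type u} [TopologicalSpace X] [T2Space X]
    [CompactSpace X] [TopologicalSpace M] [ChartedSpace (Fin n → ℂ) M]
    [IsManifold 𝓘(ℂ, Fin n → ℂ) ω M] {j : M → X} (hj : IsNormalSpace n j)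
    (hlt : IsLogTerminal n j) {x : X} {m : ℕ} (hm : 1 ≤ m) {s : M → ℂ} (hs : IsPluriForm n M m s)
    (hx : NonzeroAt n j id m s x) : TransferAt n j x := by
  refine ⟨M, M, X, inferInstance, inferInstance, inferInstance, inferInstance, inferInstance,
    inferInstance, inferInstance, inferInstance, inferInstance, j, id, id, m, 1, s, hj, hlt,
    isCoveringMap_id, (Diffeomorph.refl 𝓘(ℂ, Fin n → ℂ) M ω).isLocalDiffeomorph,
    mdifferentiable_id, ?_, hm, hs, ?_⟩
  · intro z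
    simp
  · have e : (fun y : M => s (id y) * jac n id y ^ m) = s := by
      funext y
      rw [jac_id, one_pow, mul_one, id]
    rw [e]
    exact hx

end Pool.Agent.Helper27.SingPull
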