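import Pool.Agent.Helper16.Abund.Defs

/-!
Compact normal complex spaces presented by their regular locus, pluricanonical forms near singular
points, log terminal singularities, and the generation of pluricanonical forms by coverings of the
regular locus.

A normal complex space `X` of dimension `n` is determined by the topological space `X` and the
complex manifold `R` of its regular points: `O_X(W)` is the ring of all holomorphic functions on
`W ∩ R`, each of which extends continuously to `W`.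
-/

open scoped Manifold ContDiff ENNReal
open MeasureTheory Filter

namespace Pool.Agent.Helper27.Sing

open Pool.Agent.Helper16.Abund

universe u

/-- `f` is holomorphic on the open subset `A` of the complex manifold `R`. -/
def HolOn (n : ℕ) {R : Type*} [TopologicalSpace R] [ChartedSpace (Fin n → ℂ) R] (A : Set R)
    (f : R → ℂ) : Prop :=
  MDifferentiableOn 𝓘(ℂ, Fin n → ℂ) 𝓘(ℂ) f A

/-- The complex manifold `R`, embedded by `ι` as a dense open subset of `X`, is the regular locus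
of a normal complex space `X` (Hartogs property): every holomorphic function on `W ∩ R`, `W` open
in `X`, has a limit at every point of `W`. -/
structure NormalSpace (n : ℕ) {X R : Type*} [TopologicalSpace X] [TopologicalSpace R]
    [ChartedSpace (Fin n → ℂ) R] (ι : R → X) : Prop where
  isOpenEmbedding : Topology.IsOpenEmbedding ι
  denseRange : DenseRange ι
  hartogs : ∀ W : Set X, IsOpen W → ∀ f : R → ℂ, HolOn n (ι ⁻¹' W) f → ∀ x ∈ W,
    ∃ l : ℂ, Tendsto f (comap ι (nhds x)) (nhds l)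

/-- `c` is an `m`-canonical form on the open subset `A` of `R`. -/
def IsPluriFormOn (n : ℕ) (R : Type*) [TopologicalSpace R] [ChartedSpace (Fin n → ℂ) R]
    (A : Set R) (m : ℕ) (c : R → ℂ) : Prop :=
  ∀ (V : Set (Fin n → ℂ)) (ψ : (Fin n → ℂ) → R), IsOpen V →
    MDifferentiableOn 𝓘(ℂ, Fin n → ℂ) 𝓘(ℂ, Fin n → ℂ) ψ V → Set.MapsTo ψ V A →
    DifferentiableOn ℂ (fun z => c (ψ z) * jac n ψ z ^ m) V

/-- For some `r ≥ 1`, the divisor `rK_X` is Cartier and base point free: every point of `X` has a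
neighbourhood `W` on whose regular part some global `r`-canonical form (a section of
`O_X(rK_X) = ι_* K_R^r`) has no zero. -/
def CartierFree (n : ℕ) {X R : Type*} [TopologicalSpace X] [TopologicalSpace R]
    [ChartedSpace (Fin n → ℂ) R] (ι : R → X) : Prop :=
  ∃ r : ℕ, 1 ≤ r ∧ ∀ x : X, ∃ c : R → ℂ, IsPluriForm n R r c ∧ ∀ᶠ y in comap ι (nhds x), c y ≠ 0

/-- `τ` is a generator of `O_X(rK_X)` on the neighbourhood `W` of `x`: an `r`-canonical form on
`W ∩ R` without zeros. -/
structure LocalGen (n : ℕ) {X R : Type*} [TopologicalSpace X] [TopologicalSpace R]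
    [ChartedSpace (Fin n → ℂ) R] (ι : R → X) (x : X) (W : Set X) (r : ℕ) (τ : R → ℂ) : Prop where
  pos : 1 ≤ r
  isOpen : IsOpen W
  mem : x ∈ W
  form : IsPluriFormOn n R (ι ⁻¹' W) r τ
  ne_zero : ∀ y, ι y ∈ W → τ y ≠ 0

/-- The mass `∫_A |η|^{2/m}` of the `m`-canonical form `η` over the subset `A` of `Y` is finite. -/
def FiniteMassOn (n : ℕ) {Y : Type*} [TopologicalSpace Y] [ChartedSpace (Fin n → ℂ) Y]
    (A : Set Y) (m : ℕ) (η : Y → ℂ) : Prop :=
  ∃ C : ℝ, ∀ (N : ℕ) (V : Fin N → Set (Fin n → ℂ)) (ψ : Fin N → (Fin n → ℂ) → Y),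
    (∀ i, IsOpen (V i)) →
    (∀ i, MDifferentiableOn 𝓘(ℂ, Fin n → ℂ) 𝓘(ℂ, Fin n → ℂ) (ψ i) (V i)) →
    (∀ i, Set.InjOn (ψ i) (V i)) →
    (Pairwise fun i j => Disjoint (ψ i '' V i) (ψ j '' V j)) →
    (∀ i, Set.MapsTo (ψ i) (V i) A) →
    ∑ i, ∫⁻ z in V i, ENNReal.ofReal (‖η (ψ i z) * jac n (ψ i) z ^ m‖ ^ (2 / (m : ℝ)))
      ≤ ENNReal.ofReal C

/-- `X` has log terminal singularities: near every point some `rK_X` is generated by an `r`-canonical
form `τ` with `∫ |τ|^{2/r}` finite. -/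
def LogTerminal (n : ℕ) {X R : Type*} [TopologicalSpace X] [TopologicalSpace R]
    [ChartedSpace (Fin n → ℂ) R] (ι : R → X) : Prop :=
  ∀ x : X, ∃ (W : Set X) (r : ℕ) (τ : R → ℂ), LocalGen n ι x W r τ ∧
    FiniteMassOn n (ι ⁻¹' W) r τ

/-- The `m`-canonical form `η` on the covering `p : Y → R` of the regular locus does not vanish at
the point `x` of `X`: for a local generator `τ` of `rK_X` at `x`, the function
`η^r / (p^* τ)^m` does not tend to zero at `x`. -/
def NonzeroAt (n : ℕ) {X R Y : Type*} [TopologicalSpace X] [TopologicalSpace R]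
    [ChartedSpace (Fin n → ℂ) R] [TopologicalSpace Y] [ChartedSpace (Fin n → ℂ) Y]
    (ι : R → X) (p : Y → R) (m : ℕ) (η : Y → ℂ) (x : X) : Prop :=
  ∃ (W : Set X) (r : ℕ) (τ : R → ℂ), LocalGen n ι x W r τ ∧
    ¬ Tendsto (fun y => η y ^ r / (τ (p y) * jac n p y ^ r) ^ m) (comap (ι ∘ p) (nhds x)) (nhds 0)

/-- Some holomorphic covering `p : Y → R` of the regular locus (finite or infinite, Galois or not,
connected or not) carries an `m`-canonical form `η`, `m ≥ 1`, which is in `L^q` over `R` for some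
`0 < q < ∞` and does not vanish at `x`. -/
def LqGenAt (n : ℕ) {X R : Type u} [TopologicalSpace X] [TopologicalSpace R]
    [ChartedSpace (Fin n → ℂ) R] (ι : R → X) (x : X) : Prop :=
  ∃ (Y : Type u) (_ : TopologicalSpace Y) (_ : ChartedSpace (Fin n → ℂ) Y)
    (_ : IsManifold 𝓘(ℂ, Fin n → ℂ) ω Y) (p : Y → R) (m : ℕ) (q : ℝ) (η : Y → ℂ),
    IsCoveringMap p ∧ IsLocalDiffeomorph 𝓘(ℂ, Fin n → ℂ) 𝓘(ℂ, Fin n → ℂ) ω p ∧
      1 ≤ m ∧ 0 < q ∧ IsPluriForm n Y m η ∧ FibreLq n p m q η ∧ NonzeroAt n ι p m η x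

/-- The same with an `m`-canonical form `η` on `Y` of finite total mass `∫ |η|^{2/m}`. -/
def MassGenAt (n : ℕ) {X R : Type u} [TopologicalSpace X] [TopologicalSpace R]
    [ChartedSpace (Fin n → ℂ) R] (ι : R → X) (x : X) : Prop :=
  ∃ (Y : Type u) (_ : TopologicalSpace Y) (_ : ChartedSpace (Fin n → ℂ) Y)
    (_ : IsManifold 𝓘(ℂ, Fin n → ℂ) ω Y) (p : Y → R) (m : ℕ) (η : Y → ℂ),
    IsCoveringMap p ∧ IsLocalDiffeomorph 𝓘(ℂ, Fin n → ℂ) 𝓘(ℂ, Fin n → ℂ) ω p ∧
      1 ≤ m ∧ IsPluriForm n Y m η ∧ FiniteMass n m η ∧ NonzeroAt n ι p m η x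

end Pool.Agent.Helper27.Sing
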