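import Pool.Agent.Helper27.Sing.Basic

/-! The Hartogs property implies the maximum principle near singular points (gliding hump). -/

open scoped Manifold ContDiff ENNReal Topology
open MeasureTheory Filter Metric

namespace Pool.Agent.Helper27.Sing

open Pool.Agent.Helper16.Abund

variable {n : ℕ} {R : Type*} [TopologicalSpace R] [ChartedSpace (Fin n → ℂ) R]

theorem exists_exhaustion (n : ℕ) {R : Type*} [TopologicalSpace R] [ChartedSpace (Fin n → ℂ) R]
    [SecondCountableTopology R] {A : Set R} (hA : IsOpen A) :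
    ∃ K : ℕ → Set R, (∀ j, IsCompact (K j)) ∧ (∀ j, K j ⊆ A) ∧ Monotone K ∧
      ∀ y ∈ A, ∃ j, K j ∈ 𝓝 y := by
  have h1 : LocallyCompactSpace R := ChartedSpace.locallyCompactSpace (Fin n → ℂ) R
  have h2 : LocallyCompactSpace A := hA.isOpenEmbedding_subtypeVal.locallyCompactSpace
  have h3 : SigmaCompactSpace A := sigmaCompactSpace_of_locallyCompact_secondCountable
  let K := CompactExhaustion.choice A
  refine ⟨fun j => Subtype.val '' K j, fun j => (K.isCompact j).image continuous_subtype_val,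
    fun j => ?_, fun i j hij => Set.image_mono (K.subset hij), fun y hy => ?_⟩
  · rintro _ ⟨z, -, rfl⟩
    exact z.2
  · obtain ⟨j, hj⟩ := K.exists_mem_nhds ⟨y, hy⟩
    exact ⟨j, hA.isOpenEmbedding_subtypeVal.isOpenMap.image_mem_nhds hj⟩

theorem exists_max [IsManifold 𝓘(ℂ, Fin n → ℂ) ω R] [SecondCountableTopology R] {X : Type*}
    [TopologicalSpace X] [FirstCountableTopology X] {ι : R → X} (hX : NormalSpace n ι) {W : Set X}
    (hW : IsOpen W) {x : X} (hx : x ∈ W) :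
    ∃ K : Set R, IsCompact K ∧ K ⊆ ι ⁻¹' W ∧ ∃ W' : Set X, IsOpen W' ∧ x ∈ W' ∧ W' ⊆ W ∧
      ∀ f : R → ℂ, HolOn n (ι ⁻¹' W) f → ∀ C : ℝ, 0 ≤ C → (∀ z ∈ K, ‖f z‖ ≤ C) →
        ∀ y, ι y ∈ W' → ‖f y‖ ≤ C := by
  classical
  by_contra hcon
  push Not at hcon
  set A : Set R := ι ⁻¹' W with hAdef
  have hA : IsOpen A := hW.preimage hX.isOpenEmbedding.continuous
  obtain ⟨K, hKc, hKA, hKm, hKn⟩ := exists_exhaustion n hA
  obtain ⟨U, hU⟩ := (𝓝 x).exists_antitone_basis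
  let St : Type _ := {s : Set R × (R → ℂ) // IsCompact s.1 ∧ s.1 ⊆ A ∧ HolOn n A s.2}
  have step : ∀ (i : ℕ) (s : St), ∃ (s' : St) (y : R), ι y ∈ U i ∧ K i ⊆ s'.1.1 ∧
      s.1.1 ⊆ s'.1.1 ∧ y ∈ s'.1.1 ∧ (∀ z ∈ K i ∪ s.1.1, ‖s'.1.2 z - s.1.2 z‖ ≤ (1 / 2 : ℝ) ^ i) ∧
      (i : ℝ) + 2 ≤ ‖s'.1.2 y‖ := by
    rintro i ⟨⟨L, g⟩, hLc, hLA, hg⟩
    obtain ⟨f, hf, C, hC0, hfK, y, hyW, hlt⟩ := hcon (K i ∪ L) ((hKc i).union hLc)
      (Set.union_subset (hKA i) hLA) (interior (U i) ∩ W) (isOpen_interior.inter hW)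
      ⟨mem_interior_iff_mem_nhds.2 (hU.1.mem_of_mem trivial), hx⟩ Set.inter_subset_right
    set c : ℝ := (C + ‖f y‖) / 2 with hc
    have hcpos : 0 < c := by
      rw [hc]
      have := hC0.trans_lt hlt
      positivity
    have hCc : C < c := by rw [hc]; linarith
    have hcy : c < ‖f y‖ := by rw [hc]; linarith
    have hθ1 : C / c < 1 := (div_lt_one hcpos).2 hCc
    have hθ0 : 0 ≤ C / c := by positivity
    have hl1 : 1 < ‖f y‖ / c := (one_lt_div hcpos).2 hcy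
    obtain ⟨k₁, hk₁⟩ := exists_pow_lt_of_lt_one (show (0 : ℝ) < (1 / 2) ^ i by positivity) hθ1
    obtain ⟨k₂, hk₂⟩ := pow_unbounded_of_one_lt ((i : ℝ) + 2 + ‖g y‖) hl1
    set k := max k₁ k₂ with hk
    have hkθ : (C / c) ^ k ≤ (1 / 2 : ℝ) ^ i :=
      (pow_le_pow_of_le_one hθ0 hθ1.le (le_max_left _ _)).trans hk₁.le
    have hkl : (i : ℝ) + 2 + ‖g y‖ ≤ (‖f y‖ / c) ^ k :=
      hk₂.le.trans (pow_le_pow_right₀ hl1.le (le_max_right _ _))
    let F : R → ℂ := fun z => (f z * (c⁻¹ : ℝ)) ^ k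
    have hF : HolOn n A F := (hf.mul (holOn_const _)).pow k
    have hFn : ∀ z, ‖F z‖ = (‖f z‖ / c) ^ k := by
      intro z
      simp only [F]
      rw [norm_pow, norm_mul, Complex.norm_real, Real.norm_of_nonneg (by positivity),
        div_eq_mul_inv]
    have hyA : y ∈ A := hyW.2
    refine ⟨⟨(K i ∪ L ∪ {y}, fun z => g z + F z), ((hKc i).union hLc).union isCompact_singleton,
      Set.union_subset (Set.union_subset (hKA i) hLA) (Set.singleton_subset_iff.2 hyA),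
      hg.add hF⟩, y, interior_subset hyW.1, ?_, ?_, ?_, ?_, ?_⟩
    · exact fun z hz => Or.inl (Or.inl hz)
    · exact fun z hz => Or.inl (Or.inr hz)
    · exact Or.inr rfl
    · intro z hz
      change ‖g z + F z - g z‖ ≤ _
      rw [add_sub_cancel_left, hFn]
      refine le_trans ?_ hkθ
      gcongr
      exact hfK z hz
    · change _ ≤ ‖g y + F y‖
      have h1 : ‖F y‖ ≤ ‖g y + F y‖ + ‖g y‖ := by
        calc ‖F y‖ = ‖(g y + F y) - g y‖ := by rw [add_sub_cancel_left]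
          _ ≤ _ := norm_sub_le _ _
      rw [hFn] at h1
      linarith
  choose nxt pt h1 h2 h3 h4 h5 h6 using step
  let s : ℕ → St := fun i => Nat.rec ⟨(∅, fun _ => 0), isCompact_empty, Set.empty_subset _,
    holOn_const 0⟩ (fun i s => nxt i s) i
  have hs0 : ∀ z, (s 0).1.2 z = 0 := fun z => rfl
  have hsucc : ∀ i, s (i + 1) = nxt i (s i) := fun i => rfl
  let y : ℕ → R := fun i => pt i (s i)
  have hyU : ∀ i, ι (y i) ∈ U i := fun i => h1 i (s i)
  have hmono : Monotone fun i => (s i).1.1 := monotone_nat_of_le_succ fun i => h3 i (s i)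
  have hymem : ∀ i, y i ∈ (s (i + 1)).1.1 := fun i => h4 i (s i)
  let F : ℕ → R → ℂ := fun m z => (s (m + 1)).1.2 z - (s m).1.2 z
  have hFhol : ∀ m, HolOn n A (F m) := fun m => (s (m + 1)).2.2.2.sub (s m).2.2.2
  have hFb : ∀ m, ∀ z ∈ K m ∪ (s m).1.1, ‖F m z‖ ≤ (1 / 2 : ℝ) ^ m := fun m => h5 m (s m)
  have hpart : ∀ N z, ∑ m ∈ Finset.range N, F m z = (s N).1.2 z := by
    intro N z
    rw [Finset.sum_range_sub (fun m => (s m).1.2 z), hs0, sub_zero]
  have hgeom : ∀ j : ℕ, Summable fun m : ℕ => (1 / 2 : ℝ) ^ (m + j) := fun j =>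
    (summable_nat_add_iff j).2 summable_geometric_two
  -- splitting of the series
  have hsplit : ∀ (j : ℕ) (z : R), (∀ m, ‖F (m + j) z‖ ≤ (1 / 2 : ℝ) ^ (m + j)) →
      ∑' m, F m z = (s j).1.2 z + ∑' m, F (m + j) z := by
    intro j z hz
    have hsum : Summable fun m => F (m + j) z := Summable.of_norm_bounded (hgeom j) hz
    have hsum' : Summable fun m => F m z := (summable_nat_add_iff j).1 hsum
    rw [← hpart j z, hsum'.sum_add_tsum_nat_add]
  let S : R → ℂ := fun z => ∑' m, F m z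
  have hShol : HolOn n A S := by
    apply holOn_of_locally
    intro z₀ hz₀
    obtain ⟨j, hj⟩ := hKn z₀ hz₀
    have hb : ∀ z ∈ interior (K j), ∀ m, ‖F (m + j) z‖ ≤ (1 / 2 : ℝ) ^ (m + j) := by
      intro z hz m
      apply hFb
      exact Or.inl (hKm (Nat.le_add_left j m) (interior_subset hz))
    refine ⟨fun z => (s j).1.2 z + ∑' m, F (m + j) z, interior (K j), isOpen_interior,
      mem_interior_iff_mem_nhds.2 hj, ?_, fun z hz => hsplit j z (hb z hz)⟩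
    refine HolOn.add ((s j).2.2.2.mono (interior_subset.trans (hKA j))) ?_
    exact holOn_tsum isOpen_interior
      (fun m => (hFhol _).mono (interior_subset.trans (hKA j))) (hgeom j) fun m z hz => hb z hz m
  obtain ⟨l, hl⟩ := hX.hartogs W hW S hShol x hx
  have hev : ∀ᶠ z in comap ι (𝓝 x), ‖S z‖ < ‖l‖ + 1 :=
    hl.norm.eventually (gt_mem_nhds (lt_add_one _))
  rw [eventually_comap] at hev
  obtain ⟨j, -, hj⟩ := hU.1.mem_iff.1 hev
  obtain ⟨i₀, hi₀⟩ := exists_nat_ge ‖l‖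
  set i := max j i₀ with hi
  have hyi : ‖S (y i)‖ < ‖l‖ + 1 := hj (hU.2 (le_max_left j i₀) (hyU i)) (y i) rfl
  have hb : ∀ m, ‖F (m + (i + 1)) (y i)‖ ≤ (1 / 2 : ℝ) ^ (m + (i + 1)) := by
    intro m
    apply hFb
    exact Or.inr (hmono (Nat.le_add_left (i + 1) m) (hymem i))
  have e1 : S (y i) = (s (i + 1)).1.2 (y i) + ∑' m, F (m + (i + 1)) (y i) := hsplit _ _ hb
  have e2 : ‖∑' m, F (m + (i + 1)) (y i)‖ ≤ 1 := by
    refine (tsum_of_norm_bounded (hgeom (i + 1)).hasSum hb).trans ?_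
    have : ∑' m : ℕ, (1 / 2 : ℝ) ^ (m + (i + 1)) = (1 / 2) ^ i := by
      have h : ∀ m : ℕ, (1 / 2 : ℝ) ^ (m + (i + 1)) = (1 / 2) ^ m * (1 / 2) ^ (i + 1) := by
        intro m
        rw [pow_add]
      simp_rw [h]
      rw [tsum_mul_right, tsum_geometric_two, pow_succ]
      ring
    rw [this]
    exact pow_le_one₀ (by norm_num) (by norm_num)
  have e3 : (i : ℝ) + 2 ≤ ‖(s (i + 1)).1.2 (y i)‖ := h6 i (s i)
  have e4 : ‖(s (i + 1)).1.2 (y i)‖ ≤ ‖S (y i)‖ + ‖∑' m, F (m + (i + 1)) (y i)‖ := by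
    calc ‖(s (i + 1)).1.2 (y i)‖ = ‖S (y i) - ∑' m, F (m + (i + 1)) (y i)‖ := by
          rw [e1, add_sub_cancel_right]
      _ ≤ _ := norm_sub_le _ _
  have e5 : ‖l‖ ≤ i := hi₀.trans (by exact_mod_cast le_max_right j i₀)
  linarith

end Pool.Agent.Helper27.Sing
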