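import Pool.Agent.Helper96.Ab.Defs
import Pool.Agent.Helper36.Abund.Area

/-! The pull back of a pluricanonical form of finite mass under a holomorphic map all of whose fibres
have at most `N` points has finite mass. -/

open scoped Manifold ContDiff ENNReal Topology
open MeasureTheory

namespace Pool.Agent.Helper27.SingPull

open Pool.Agent.Helper16.Abund Pool.Agent.Helper96.Ab

/-- One coordinate neighbourhood in the target. -/
theorem pull_chart_bound {n m N : ℕ} (hm : 1 ≤ m) {Y Z : Type*}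
    [TopologicalSpace Y] [ChartedSpace (Fin n → ℂ) Y] [IsManifold 𝓘(ℂ, Fin n → ℂ) ω Y]
    [TopologicalSpace Z]
    [ChartedSpace (Fin n → ℂ) Z] [IsManifold 𝓘(ℂ, Fin n → ℂ) ω Z]
    {g : Y → Z} (hg : MDifferentiable 𝓘(ℂ, Fin n → ℂ) 𝓘(ℂ, Fin n → ℂ) g)
    (hN : ∀ z : Z, (g ⁻¹' {z}).encard ≤ N) {A : Set Z} (hA : IsOpen A) {s : Z → ℂ}
    (hs : IsPluriFormOn n Z m A s) (z₀ : Z) {B : Set (Fin n → ℂ)} (hB : MeasurableSet B)
    (hBt : B ⊆ (chartAt (Fin n → ℂ) z₀).target)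
    (hBA : ∀ w ∈ B, (chartAt (Fin n → ℂ) z₀).symm w ∈ A)
    {N' : ℕ} {V : Fin N' → Set (Fin n → ℂ)} {ψ : Fin N' → (Fin n → ℂ) → Y}
    (hV : ∀ i, IsOpen (V i))
    (hψ : ∀ i, MDifferentiableOn 𝓘(ℂ, Fin n → ℂ) 𝓘(ℂ, Fin n → ℂ) (ψ i) (V i))
    (hinj : ∀ i, Set.InjOn (ψ i) (V i))
    (hdisj : Pairwise fun i j => Disjoint (ψ i '' V i) (ψ j '' V j)) :
    ∑ i, ∫⁻ z in (V i ∩ (g ∘ ψ i) ⁻¹' ((chartAt (Fin n → ℂ) z₀).symm '' B)), ENNReal.ofReal
        (‖(s (g (ψ i z)) * jac n g (ψ i z) ^ m) * jac n (ψ i) z ^ m‖ ^ (2 / (m : ℝ)))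
      ≤ N * ∫⁻ w in B, ENNReal.ofReal (‖s ((chartAt (Fin n → ℂ) z₀).symm w) *
          jac n (chartAt (Fin n → ℂ) z₀).symm w ^ m‖ ^ (2 / (m : ℝ))) := by
  classical
  have : IsManifold 𝓘(ℂ, Fin n → ℂ) 1 Y := IsManifold.of_le (n := ω) le_top
  have : IsManifold 𝓘(ℂ, Fin n → ℂ) 1 Z := IsManifold.of_le (n := ω) le_top
  set χ := chartAt (Fin n → ℂ) z₀ with hχ
  have hm0 : (m : ℝ) ≠ 0 := by
    have : m ≠ 0 := by omega
    exact_mod_cast this
  -- the local expression of the form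
  set S : (Fin n → ℂ) → ℂ := fun w => s (χ.symm w) * jac n χ.symm w ^ m with hS
  set T : Set (Fin n → ℂ) := χ.target ∩ χ.symm ⁻¹' A with hT
  have hTo : IsOpen T := χ.isOpen_inter_preimage_symm hA
  have hSd : DifferentiableOn ℂ S T :=
    hs T χ.symm hTo ((mdifferentiableOn_atlas_symm (chart_mem_atlas _ z₀)).mono
      Set.inter_subset_left) fun w hw => hw.2
  have hBT : B ⊆ T := fun w hw => ⟨hBt hw, hBA w hw⟩
  have hq : (0 : ℝ) ≤ 2 / (m : ℝ) := by positivity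
  set G : (Fin n → ℂ) → ℝ≥0∞ := T.indicator
    (fun w => ENNReal.ofReal (‖S w‖ ^ (2 / (m : ℝ)))) with hG
  have hGm : Measurable G := by
    rw [hG, ← Set.piecewise_eq_indicator]
    refine ContinuousOn.measurable_piecewise ?_ continuousOn_const hTo.measurableSet
    refine ENNReal.continuous_ofReal.comp_continuousOn ?_
    exact ContinuousOn.rpow_const hSd.continuousOn.norm (fun x _ => Or.inr hq)
  have hGint : ∫⁻ w in B, G w = ∫⁻ w in B, ENNReal.ofReal (‖S w‖ ^ (2 / (m : ℝ))) := by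
    refine setLIntegral_congr_fun hB fun w hw => ?_
    rw [hG, Set.indicator_of_mem (hBT hw)]
  -- differentiability facts
  have hψa : ∀ i, ∀ z ∈ V i, MDifferentiableAt 𝓘(ℂ, Fin n → ℂ) 𝓘(ℂ, Fin n → ℂ) (ψ i) z :=
    fun i z hz => (hψ i z hz).mdifferentiableAt ((hV i).mem_nhds hz)
  have hfa : ∀ i, ∀ z ∈ V i,
      MDifferentiableAt 𝓘(ℂ, Fin n → ℂ) 𝓘(ℂ, Fin n → ℂ) (g ∘ ψ i) z :=
    fun i z hz => (hg (ψ i z)).comp z (hψa i z hz)
  set U : Fin N' → Set (Fin n → ℂ) := fun i => V i ∩ (g ∘ ψ i) ⁻¹' χ.source with hU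
  have hUo : ∀ i, IsOpen (U i) := by
    intro i
    have hc : ContinuousOn (g ∘ ψ i) (V i) := fun z hz =>
      (hfa i z hz).continuousAt.continuousWithinAt
    exact hc.isOpen_inter_preimage (hV i) χ.open_source
  set h : Fin N' → (Fin n → ℂ) → (Fin n → ℂ) := fun i => χ ∘ (g ∘ ψ i) with hh
  have hha : ∀ i, ∀ z ∈ U i,
      MDifferentiableAt 𝓘(ℂ, Fin n → ℂ) 𝓘(ℂ, Fin n → ℂ) (h i) z := by
    intro i z hz
    exact (mdifferentiableAt_atlas (chart_mem_atlas _ z₀) hz.2).comp z (hfa i z hz.1)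
  have hhd : ∀ i, DifferentiableOn ℂ (h i) (U i) := by
    intro i z hz
    exact (mdifferentiableAt_iff_differentiableAt.mp (hha i z hz)).differentiableWithinAt
  have hAeq : ∀ i, V i ∩ (g ∘ ψ i) ⁻¹' (χ.symm '' B) = U i ∩ (h i) ⁻¹' B := by
    intro i
    ext z
    constructor
    · rintro ⟨hz, w, hw, hwz⟩
      have h1 : g (ψ i z) ∈ χ.source := by
        have : χ.symm w = g (ψ i z) := hwz
        rw [← this]
        exact χ.map_target (hBt hw)
      refine ⟨⟨hz, h1⟩, ?_⟩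
      change χ (g (ψ i z)) ∈ B
      have : χ.symm w = g (ψ i z) := hwz
      rw [← this, χ.right_inv (hBt hw)]
      exact hw
    · rintro ⟨⟨hz, h1⟩, h2⟩
      exact ⟨hz, h i z, h2, χ.left_inv h1⟩
  have hAm : ∀ i, MeasurableSet (U i ∩ (h i) ⁻¹' B) := by
    intro i
    have h1 : Measurable ((U i).piecewise (h i) fun _ => 0) :=
      ContinuousOn.measurable_piecewise (hhd i).continuousOn continuousOn_const
        (hUo i).measurableSet
    have h2 : U i ∩ (h i) ⁻¹' B = U i ∩ ((U i).piecewise (h i) fun _ => 0) ⁻¹' B := by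
      ext z
      simp only [Set.mem_inter_iff, Set.mem_preimage]
      constructor
      · rintro ⟨hz, hw⟩
        refine ⟨hz, ?_⟩
        rw [Set.piecewise_eq_of_mem _ _ _ hz]
        exact hw
      · rintro ⟨hz, hw⟩
        rw [Set.piecewise_eq_of_mem _ _ _ hz] at hw
        exact ⟨hz, hw⟩
    rw [h2]
    exact (hUo i).measurableSet.inter (h1 hB)
  have key := Helper36.Abund.lintegral_comp_le (N := N) (A := fun i => U i ∩ (h i) ⁻¹' B)
    hAm hUo (fun i => Set.inter_subset_left) hhd ?_ hB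
    (fun i z hz => hz.2) hGm
  · rw [hGint] at key
    refine le_trans (le_of_eq ?_) key
    refine Finset.sum_congr rfl fun i _ => ?_
    rw [hAeq i]
    refine setLIntegral_congr_fun (hAm i) fun z hz => ?_
    have hz2 : g (ψ i z) ∈ χ.source := hz.1.2
    have hzB : h i z ∈ B := hz.2
    have hsymm : χ.symm (h i z) = g (ψ i z) := χ.left_inv hz2
    -- chain rules
    have e1 : jac n (g ∘ ψ i) z = jac n g (ψ i z) * jac n (ψ i) z :=
      jac_comp (hg (ψ i z)) (hψa i z hz.1.1)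
    have e2 : jac n (g ∘ ψ i) z = jac n χ.symm (h i z) * (fderiv ℂ (h i) z).det := by
      have hev : (g ∘ ψ i) =ᶠ[nhds z] (χ.symm ∘ h i) := by
        filter_upwards [(hUo i).mem_nhds hz.1] with z' hz'
        exact (χ.left_inv hz'.2).symm
      rw [jac_congr hev, jac_comp ?_ (hha i z hz.1), jac_eq_fderiv]
      exact mdifferentiableAt_atlas_symm (chart_mem_atlas _ z₀) (χ.map_source hz2)
    have e3 : (s (g (ψ i z)) * jac n g (ψ i z) ^ m) * jac n (ψ i) z ^ m =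
        S (h i z) * (fderiv ℂ (h i) z).det ^ m := by
      rw [mul_assoc, ← mul_pow, ← e1, e2, hS]
      simp only [hsymm]
      ring
    have e4 : ‖(s (g (ψ i z)) * jac n g (ψ i z) ^ m) * jac n (ψ i) z ^ m‖ ^ (2 / (m : ℝ)) =
        ‖S (h i z)‖ ^ (2 / (m : ℝ)) * ‖(fderiv ℂ (h i) z).det‖ ^ 2 := by
      rw [e3, norm_mul, Real.mul_rpow (norm_nonneg _) (norm_nonneg _), norm_pow,
        ← Real.rpow_natCast (‖(fderiv ℂ (h i) z).det‖) m, ← Real.rpow_mul (norm_nonneg _),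
        mul_div_cancel₀ _ hm0, Real.rpow_two]
    rw [e4, ENNReal.ofReal_mul (by positivity), hG, Set.indicator_of_mem (hBT hzB)]
  · intro w
    refine le_trans ?_ (hN (χ.symm w))
    refine Set.encard_le_encard_of_injOn (f := fun x : Fin N' × (Fin n → ℂ) => ψ x.1 x.2) ?_ ?_
    · rintro ⟨i, z⟩ ⟨hz, hw⟩
      simp only [Set.mem_preimage, Set.mem_singleton_iff]
      rw [← hw]
      exact (χ.left_inv hz.1.2).symm
    · rintro ⟨i, z⟩ ⟨hz, -⟩ ⟨j, z'⟩ ⟨hz', -⟩ hzz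
      simp only at hz hz' hzz
      have hij : i = j := by
        by_contra hne
        exact Set.disjoint_left.mp (hdisj hne) ⟨z, hz.1.1, rfl⟩ ⟨z', hz'.1.1, hzz.symm⟩
      subst hij
      rw [hinj i hz.1.1 hz'.1.1 hzz]

end Pool.Agent.Helper27.SingPull
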