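import Pool.Agent.Helper27.Sing.Pull
import Pool.Agent.Helper27.Sing.Max

/-! The pull back of a pluricanonical form of finite mass under a holomorphic map all of whose fibres
have at most `N` points has finite mass. -/

open scoped Manifold ContDiff ENNReal Topology
open MeasureTheory

namespace Pool.Agent.Helper27.SingPull

open Pool.Agent.Helper16.Abund Pool.Agent.Helper96.Ab

theorem finiteMassOn_pull {n m N : ℕ} (hm : 1 ≤ m) {Y Z : Type*}
    [TopologicalSpace Y] [ChartedSpace (Fin n → ℂ) Y] [IsManifold 𝓘(ℂ, Fin n → ℂ) ω Y]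
    [TopologicalSpace Z] [T2Space Z]
    [ChartedSpace (Fin n → ℂ) Z] [IsManifold 𝓘(ℂ, Fin n → ℂ) ω Z]
    {g : Y → Z} (hg : MDifferentiable 𝓘(ℂ, Fin n → ℂ) 𝓘(ℂ, Fin n → ℂ) g)
    (hN : ∀ z : Z, (g ⁻¹' {z}).encard ≤ N) {A : Set Z} (hA : IsOpen A) {s : Z → ℂ}
    (hs : IsPluriFormOn n Z m A s) (hmass : FiniteMassOn n m A s) :
    FiniteMassOn n m (g ⁻¹' A) (fun y => s (g y) * jac n g y ^ m) := by
  classical
  obtain ⟨C, hC⟩ := hmass
  refine ⟨N * C, ?_⟩
  intro N' V ψ hV hψ hmaps hinj hdisj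
  rw [ENNReal.ofReal_mul (by positivity), ENNReal.ofReal_natCast]
  set F : Fin N' → (Fin n → ℂ) → ℝ≥0∞ := fun i z => ENNReal.ofReal
    (‖(s (g (ψ i z)) * jac n g (ψ i z) ^ m) * jac n (ψ i) z ^ m‖ ^ (2 / (m : ℝ))) with hF
  have hgc : Continuous g := hg.continuous
  have key : ∀ K : Fin N' → Set (Fin n → ℂ), (∀ i, IsCompact (K i)) → (∀ i, K i ⊆ V i) →
      ∑ i, ∫⁻ z in K i, F i z ≤ N * ENNReal.ofReal C := by
    intro K hKc hKV
    -- the compact image
    set L : Set Z := ⋃ i, (g ∘ ψ i) '' K i with hLdef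
    have hL : IsCompact L := by
      refine isCompact_iUnion fun i => (hKc i).image_of_continuousOn ?_
      exact hgc.comp_continuousOn ((hψ i).continuousOn.mono (hKV i))
    have hLA : L ⊆ A := by
      intro z hz
      obtain ⟨i, w, hw, rfl⟩ := Set.mem_iUnion.1 hz
      exact hmaps i (hKV i hw)
    have hex : ∀ z₀ ∈ A, ∃ r : ℝ, 0 < r ∧ Metric.closedBall (chartAt (Fin n → ℂ) z₀ z₀) r ⊆
        (chartAt (Fin n → ℂ) z₀).target ∩ (chartAt (Fin n → ℂ) z₀).symm ⁻¹' A := by
      intro z₀ hz₀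
      have hz₀s : z₀ ∈ (chartAt (Fin n → ℂ) z₀).source := mem_chart_source _ z₀
      have hopen := (chartAt (Fin n → ℂ) z₀).isOpen_inter_preimage_symm hA
      have hmem : chartAt (Fin n → ℂ) z₀ z₀ ∈
          (chartAt (Fin n → ℂ) z₀).target ∩ (chartAt (Fin n → ℂ) z₀).symm ⁻¹' A := by
        refine ⟨(chartAt (Fin n → ℂ) z₀).map_source hz₀s, ?_⟩
        rw [Set.mem_preimage, (chartAt (Fin n → ℂ) z₀).left_inv hz₀s]
        exact hz₀
      obtain ⟨r, hr, hsub⟩ := Metric.nhds_basis_closedBall.mem_iff.mp (hopen.mem_nhds hmem)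
      exact ⟨r, hr, hsub⟩
    choose! r hr hrsub using hex
    let ba : Z → Set (Fin n → ℂ) := fun z₀ => Metric.ball (chartAt (Fin n → ℂ) z₀ z₀) (r z₀)
    let O : Z → Set Z := fun z₀ =>
      (chartAt (Fin n → ℂ) z₀).source ∩ (chartAt (Fin n → ℂ) z₀) ⁻¹' ba z₀
    have hOo : ∀ z₀, IsOpen (O z₀) := fun z₀ =>
      (chartAt (Fin n → ℂ) z₀).isOpen_inter_preimage Metric.isOpen_ball
    obtain ⟨t, htL, htc⟩ := hL.elim_nhds_subcover O (fun z hz => (hOo z).mem_nhds
      ⟨mem_chart_source _ z, Metric.mem_ball_self (hr z (hLA hz))⟩)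
    set M := t.card with hM
    let c : Fin M → Z := fun k => (t.equivFin.symm k).1
    have hcA : ∀ k, c k ∈ A := fun k => hLA (htL _ (t.equivFin.symm k).2)
    have hcov : ∀ z ∈ L, ∃ k, z ∈ O (c k) := by
      intro z hz
      obtain ⟨x, hx⟩ := Set.mem_iUnion.1 (htc hz)
      obtain ⟨hxt, hzx⟩ := Set.mem_iUnion.1 hx
      refine ⟨t.equivFin ⟨x, hxt⟩, ?_⟩
      simpa [c] using hzx
    let χ : Fin M → OpenPartialHomeomorph Z (Fin n → ℂ) := fun k => chartAt (Fin n → ℂ) (c k)
    let Cl : Fin M → Set Z := fun k => (χ k).symm '' Metric.closedBall (χ k (c k)) (r (c k))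
    let Sp : Fin M → Set Z := fun k => (χ k).symm '' Metric.sphere (χ k (c k)) (r (c k))
    have hcb : ∀ k, Metric.closedBall (χ k (c k)) (r (c k)) ⊆ (χ k).target ∩ (χ k).symm ⁻¹' A :=
      fun k => hrsub (c k) (hcA k)
    have hClc : ∀ k, IsClosed (Cl k) := by
      intro k
      refine ((isCompact_closedBall _ _).image_of_continuousOn ?_).isClosed
      exact (χ k).continuousOn_symm.mono fun w hw => (hcb k hw).1
    have hOCl : ∀ k, O (c k) ⊆ Cl k := by
      rintro k z ⟨hz, hzb⟩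
      exact ⟨χ k z, Metric.ball_subset_closedBall hzb, (χ k).left_inv hz⟩
    let D : Fin M → Set Z := fun k => O (c k) \ ⋃ l ∈ Finset.Iio k, Cl l
    have hDo : ∀ k, IsOpen (D k) := fun k =>
      (hOo (c k)).sdiff (isClosed_biUnion_finset fun l _ => hClc l)
    let B : Fin M → Set (Fin n → ℂ) := fun k =>
      ((χ k).target ∩ (χ k).symm ⁻¹' D k) ∩ ba (c k)
    have hBo : ∀ k, IsOpen (B k) := fun k =>
      ((χ k).isOpen_inter_preimage_symm (hDo k)).inter Metric.isOpen_ball
    have hBD : ∀ k, (χ k).symm '' B k = D k := by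
      intro k
      ext z
      constructor
      · rintro ⟨w, hw, rfl⟩
        exact hw.1.2
      · intro hz
        have hzO : z ∈ O (c k) := hz.1
        have hzs : z ∈ (χ k).source := hzO.1
        refine ⟨χ k z, ⟨⟨(χ k).map_source hzs, ?_⟩, hzO.2⟩, (χ k).left_inv hzs⟩
        rw [Set.mem_preimage, (χ k).left_inv hzs]
        exact hz
    have hDdisj : Pairwise fun k l => Disjoint (D k) (D l) := by
      have h1 : ∀ k l, l < k → Disjoint (D k) (D l) := by
        intro k l hlk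
        rw [Set.disjoint_left]
        intro z hzk hzl
        apply hzk.2
        exact Set.mem_biUnion (Finset.mem_coe.2 (Finset.mem_Iio.2 hlk)) (hOCl l hzl.1)
      intro k l hkl
      rcases lt_or_gt_of_ne hkl with h | h
      · exact (h1 l k h).symm
      · exact h1 k l h
    -- covering
    have hcovK : ∀ i, K i ⊆ (⋃ k, (V i ∩ (g ∘ ψ i) ⁻¹' D k)) ∪ ⋃ k, (V i ∩ (g ∘ ψ i) ⁻¹' Sp k) := by
      intro i z hz
      have hzL : g (ψ i z) ∈ L := Set.mem_iUnion.2 ⟨i, z, hz, rfl⟩
      obtain ⟨k₀, hk₀⟩ := hcov _ hzL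
      obtain ⟨k, hk, hmin⟩ := WellFounded.has_min (wellFounded_lt (α := Fin M))
        {k | g (ψ i z) ∈ Cl k} ⟨k₀, hOCl k₀ hk₀⟩
      obtain ⟨w, hw, hwz⟩ := hk
      rcases (Metric.mem_closedBall.1 hw).lt_or_eq with h | h
      · left
        refine Set.mem_iUnion.2 ⟨k, hKV i hz, ?_, ?_⟩
        · refine ⟨?_, ?_⟩
          · change g (ψ i z) ∈ (χ k).source
            rw [← hwz]
            exact (χ k).map_target (hcb k hw).1
          · change χ k (g (ψ i z)) ∈ ba (c k)
            rw [← hwz, (χ k).right_inv (hcb k hw).1]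
            exact h
        · intro hmem
          obtain ⟨l, hl⟩ := Set.mem_iUnion.1 hmem
          obtain ⟨hlk, hzl⟩ := Set.mem_iUnion.1 hl
          exact hmin l hzl (Finset.mem_Iio.1 hlk)
      · right
        exact Set.mem_iUnion.2 ⟨k, hKV i hz, w, h, hwz⟩
    -- the two sums
    have hsph : ∀ k, ∑ i, ∫⁻ z in (V i ∩ (g ∘ ψ i) ⁻¹' Sp k), F i z = 0 := by
      intro k
      have h1 := pull_chart_bound hm hg hN hA hs (c k)
        (B := Metric.sphere (χ k (c k)) (r (c k))) Metric.isClosed_sphere.measurableSet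
        (fun w hw => (hcb k (Metric.sphere_subset_closedBall hw)).1)
        (fun w hw => (hcb k (Metric.sphere_subset_closedBall hw)).2) hV hψ hinj hdisj
      have h2 : (volume : Measure (Fin n → ℂ)) (Metric.sphere (χ k (c k)) (r (c k))) = 0 :=
        Measure.addHaar_sphere_of_ne_zero _ _ (hr (c k) (hcA k)).ne'
      rw [setLIntegral_measure_zero _ _ h2, mul_zero] at h1
      exact le_antisymm h1 zero_le
    have hdk : ∑ k, ∑ i, ∫⁻ z in (V i ∩ (g ∘ ψ i) ⁻¹' D k), F i z ≤ N * ENNReal.ofReal C := by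
      have h1 : ∀ k, ∑ i, ∫⁻ z in (V i ∩ (g ∘ ψ i) ⁻¹' D k), F i z ≤
          N * ∫⁻ w in B k, ENNReal.ofReal (‖s ((χ k).symm w) *
            jac n (χ k).symm w ^ m‖ ^ (2 / (m : ℝ))) := by
        intro k
        rw [← hBD k]
        refine pull_chart_bound hm hg hN hA hs (c k) (hBo k).measurableSet
          (fun w hw => hw.1.1) (fun w hw => ?_) hV hψ hinj hdisj
        exact (hcb k (Metric.ball_subset_closedBall hw.2)).2
      calc ∑ k, ∑ i, ∫⁻ z in (V i ∩ (g ∘ ψ i) ⁻¹' D k), F i z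
          ≤ ∑ k, N * ∫⁻ w in B k, ENNReal.ofReal (‖s ((χ k).symm w) *
            jac n (χ k).symm w ^ m‖ ^ (2 / (m : ℝ))) := Finset.sum_le_sum fun k _ => h1 k
        _ = N * ∑ k, ∫⁻ w in B k, ENNReal.ofReal (‖s ((χ k).symm w) *
            jac n (χ k).symm w ^ m‖ ^ (2 / (m : ℝ))) := by rw [Finset.mul_sum]
        _ ≤ N * ENNReal.ofReal C := by
          gcongr
          refine hC M B (fun k => (χ k).symm) hBo (fun k => ?_) (fun k w hw => ?_) (fun k => ?_) ?_
          · exact (mdifferentiableOn_atlas_symm (chart_mem_atlas _ (c k))).mono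
              fun w hw => hw.1.1
          · exact (hcb k (Metric.ball_subset_closedBall hw.2)).2
          · exact (χ k).symm.injOn.mono fun w hw => hw.1.1
          · intro k l hkl
            rw [hBD k, hBD l]
            exact hDdisj hkl
    calc ∑ i, ∫⁻ z in K i, F i z
        ≤ ∑ i, ((∑ k, ∫⁻ z in (V i ∩ (g ∘ ψ i) ⁻¹' D k), F i z) +
            ∑ k, ∫⁻ z in (V i ∩ (g ∘ ψ i) ⁻¹' Sp k), F i z) := by
          refine Finset.sum_le_sum fun i _ => ?_
          refine (lintegral_mono_set (hcovK i)).trans ((lintegral_union_le _ _ _).trans ?_)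
          refine add_le_add ((lintegral_iUnion_le _ _).trans (le_of_eq ?_))
            ((lintegral_iUnion_le _ _).trans (le_of_eq ?_))
          · rw [tsum_fintype]
          · rw [tsum_fintype]
      _ = (∑ k, ∑ i, ∫⁻ z in (V i ∩ (g ∘ ψ i) ⁻¹' D k), F i z) +
            ∑ k, ∑ i, ∫⁻ z in (V i ∩ (g ∘ ψ i) ⁻¹' Sp k), F i z := by
          rw [Finset.sum_add_distrib, Finset.sum_comm]
          congr 1
          rw [Finset.sum_comm]
      _ ≤ N * ENNReal.ofReal C := by
          rw [Finset.sum_eq_zero fun k _ => hsph k, add_zero]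
          exact hdk
  -- exhaustion by compact sets
  choose κ hκc hκV hκm hκn using fun i => Pool.Agent.Helper27.Sing.exists_exhaustion n (R := Fin n → ℂ) (hV i)
  have hVeq : ∀ i, V i = ⋃ j, κ i j := by
    intro i
    apply Set.Subset.antisymm
    · intro z hz
      obtain ⟨j, hj⟩ := hκn i z hz
      exact Set.mem_iUnion.2 ⟨j, mem_of_mem_nhds hj⟩
    · exact Set.iUnion_subset (hκV i)
  calc ∑ i, ∫⁻ z in V i, F i z = ∑ i, ⨆ j, ∫⁻ z in κ i j, F i z := by
        refine Finset.sum_congr rfl fun i _ => ?_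
        conv_lhs => rw [hVeq i]
        exact setLIntegral_iUnion_of_directed _ (hκm i).directed_le
    _ = ⨆ j, ∑ i, ∫⁻ z in κ i j, F i z :=
        ENNReal.finsetSum_iSup_of_monotone fun i j j' hjj =>
          lintegral_mono_set (hκm i hjj)
    _ ≤ N * ENNReal.ofReal C := iSup_le fun j => key (fun i => κ i j) (fun i => hκc i j)
        fun i => hκV i j

end Pool.Agent.Helper27.SingPull
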